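import Pool.Agent.Helper25.FN.Spec

set_option autoImplicit false

/-! # FN part COER -/

namespace Pool.Agent.Helper59.FN.COER

open MeasureTheory
open scoped ContDiff
open Pool.Agent.Helper25.FN
open Pool.Agent.Helper25.FB.Inj (Entire IsAF FBorel ExpType InPerp star InPStarExp)

theorem nm_nonneg {n : ℕ} (z : V n) : 0 ≤ nm z := Real.sqrt_nonneg _

theorem nm_cont {n : ℕ} : Continuous (nm : V n → ℝ) := by
  unfold nm
  fun_prop

theorem wd_smooth {n : ℕ} (j : Fin n) (f : V n → ℂ) (hf : ContDiff ℝ ∞ f) :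
    ContDiff ℝ ∞ (wd j f) := by
  have h1 : ContDiff ℝ ∞ (fderiv ℝ f) := hf.fderiv_right (m := ∞) (by norm_cast)
  have h2 : ∀ v : V n, ContDiff ℝ ∞ (fun z => fderiv ℝ f z v) := fun v =>
    h1.clm_apply contDiff_const
  unfold wd
  exact ((h2 _).sub (contDiff_const.mul (h2 _))).div_const _

theorem dl_smooth {n : ℕ} (l : List (Fin n)) (f : V n → ℂ) (hf : ContDiff ℝ ∞ f) :
    ContDiff ℝ ∞ (dl l f) := by
  induction l with
  | nil => simpa [dl] using hf
  | cons j l ih =>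
    have : dl (j :: l) f = wd j (dl l f) := rfl
    rw [this]
    exact wd_smooth j _ ih

theorem wc_smooth {n : ℕ} (Φ : V n → ℝ) (h : ContDiff ℝ ∞ Φ) : ContDiff ℝ ∞ (wc Φ) := by
  have : ContDiff ℝ ∞ (wt Φ) := by
    unfold wt
    exact (contDiff_const.mul h).exp
  exact Complex.ofRealCLM.contDiff.comp this

theorem PDm_cont {n : ℕ} (P : Pol n) (Φ : V n → ℝ) (h : ContDiff ℝ ∞ Φ) :
    Continuous (PDm P (wc Φ)) := by
  unfold PDm
  refine continuous_finset_sum _ fun α _ => ?_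
  exact continuous_const.mul (dl_smooth _ _ (wc_smooth Φ h)).continuous

theorem pv_cont {n : ℕ} (P : Pol n) : Continuous (pv P) := by
  unfold pv
  exact MvPolynomial.continuous_eval _

theorem main (hPTW : S_PTW) (hGAIN : S_GAIN) (hSYM2 : S_SYM2) : S_COER := by
  intro n P A η Φ hd hG hA hW
  obtain ⟨c, C, hc, hC, hpt⟩ := hPTW n P A η Φ hd hA hW
  have hL : (0 : ℝ) < 2 * C / c + 1 := by positivity
  obtain ⟨C', R, hg⟩ := hGAIN n P Φ hd hG hW.smooth (hSYM2 n Φ hW.smooth hW.hom) _ hL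
  refine ⟨c / 2, max C (c / 2 * C'), R, by positivity, ?_, ?_⟩
  · intro z
    refine (hpt z).2.trans (mul_le_mul_of_nonneg_right (le_max_left _ _) ?_)
    have h0 : (0 : ℝ) < 1 + nm z := by linarith [nm_nonneg z]
    have h1 : (0 : ℝ) ≤ wt Φ z := (Real.exp_pos _).le
    unfold den
    positivity
  intro f hf
  set a : V n → ℝ := fun z => ‖pv P z‖ ^ 2 * (1 + nm z) ^ (-(P.totalDegree : ℤ)) with ha
  set b : V n → ℝ := fun z => (1 + nm z) ^ ((P.totalDegree : ℤ) - 2) with hb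
  have hpos : ∀ z : V n, (0 : ℝ) < 1 + nm z := fun z => by linarith [nm_nonneg z]
  have ha0 : ∀ z, 0 ≤ a z := fun z => by
    have := hpos z
    simp only [ha]
    positivity
  have hb0 : ∀ z, 0 ≤ b z := fun z => by
    have := hpos z
    simp only [hb]
    positivity
  have hw0 : ∀ z, 0 ≤ wt Φ z := fun z => (Real.exp_pos _).le
  have hac : Continuous a := by
    simp only [ha]
    refine ((pv_cont P).norm.pow 2).mul ?_
    exact (continuous_const.add nm_cont).zpow₀ _ fun z => Or.inl (hpos z).ne'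
  have hbc : Continuous b := by
    simp only [hb]
    exact (continuous_const.add nm_cont).zpow₀ _ fun z => Or.inl (hpos z).ne'
  have hwc : Continuous (wt Φ) := by
    unfold wt
    exact Real.continuous_exp.comp (continuous_const.mul hW.smooth.continuous)
  have hfc : Continuous f := hf.1.continuous
  have hden : ∀ z, den P Φ z = (a z + b z) * wt Φ z := fun z => rfl
  have hI : Integrable (fun z => ‖f z‖ ^ 2 * den P Φ z) := hf.2
  have hIa : Integrable (fun z => ‖f z‖ ^ 2 * (a z * wt Φ z)) := by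
    refine hI.mono' ((hfc.norm.pow 2).mul (hac.mul hwc)).aestronglyMeasurable
      (Filter.Eventually.of_forall fun z => ?_)
    rw [Real.norm_of_nonneg (mul_nonneg (by positivity) (mul_nonneg (ha0 z) (hw0 z))), hden]
    refine mul_le_mul_of_nonneg_left ?_ (by positivity)
    exact mul_le_mul_of_nonneg_right (by linarith [hb0 z]) (hw0 z)
  have hIb : Integrable (fun z => ‖f z‖ ^ 2 * (b z * wt Φ z)) := by
    refine hI.mono' ((hfc.norm.pow 2).mul (hbc.mul hwc)).aestronglyMeasurable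
      (Filter.Eventually.of_forall fun z => ?_)
    rw [Real.norm_of_nonneg (mul_nonneg (by positivity) (mul_nonneg (hb0 z) (hw0 z))), hden]
    refine mul_le_mul_of_nonneg_left ?_ (by positivity)
    exact mul_le_mul_of_nonneg_right (by linarith [ha0 z]) (hw0 z)
  set β : V n → ℂ := fun z => MvPolynomial.eval z (star P) * PDm P (wc Φ) z with hβ
  have hβc : Continuous β := (MvPolynomial.continuous_eval _).mul (PDm_cont P Φ hW.smooth)
  have hIβ : Integrable (fun z => β z * ((‖f z‖ ^ 2 : ℝ) : ℂ)) := by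
    refine (hI.const_mul C).mono' (hβc.mul
      (Complex.continuous_ofReal.comp (hfc.norm.pow 2))).aestronglyMeasurable
      (Filter.Eventually.of_forall fun z => ?_)
    rw [norm_mul, Complex.norm_real, Real.norm_of_nonneg (by positivity)]
    have := (hpt z).2
    nlinarith [sq_nonneg ‖f z‖, mul_le_mul_of_nonneg_right this (sq_nonneg ‖f z‖)]
  have hre : (∫ z, β z * ((‖f z‖ ^ 2 : ℝ) : ℂ)).re = ∫ z, (β z * ((‖f z‖ ^ 2 : ℝ) : ℂ)).re := by
    have := Complex.reCLM.integral_comp_comm hIβ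
    simpa using this.symm
  have hlow : c * (∫ z, ‖f z‖ ^ 2 * (a z * wt Φ z)) - C * (∫ z, ‖f z‖ ^ 2 * (b z * wt Φ z)) ≤
      (∫ z, β z * ((‖f z‖ ^ 2 : ℝ) : ℂ)).re := by
    rw [hre, ← integral_const_mul, ← integral_const_mul, ← integral_sub (hIa.const_mul c)
      (hIb.const_mul C)]
    refine integral_mono ((hIa.const_mul c).sub (hIb.const_mul C)) hIβ.re fun z => ?_
    have h1 := (hpt z).1
    have h2 : (β z * ((‖f z‖ ^ 2 : ℝ) : ℂ)).re = (β z).re * ‖f z‖ ^ 2 := by
      rw [Complex.re_mul_ofReal]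
    show c * (‖f z‖ ^ 2 * (a z * wt Φ z)) - C * (‖f z‖ ^ 2 * (b z * wt Φ z)) ≤
      (β z * ((‖f z‖ ^ 2 : ℝ) : ℂ)).re
    rw [h2]
    have h3 : (c * a z - C * b z) * wt Φ z ≤ (β z).re := h1
    nlinarith [mul_le_mul_of_nonneg_right h3 (sq_nonneg ‖f z‖)]
  have hsum : ∫ z, ‖f z‖ ^ 2 * den P Φ z =
      (∫ z, ‖f z‖ ^ 2 * (a z * wt Φ z)) + ∫ z, ‖f z‖ ^ 2 * (b z * wt Φ z) := by
    rw [← integral_add hIa hIb]
    refine integral_congr_ae (Filter.Eventually.of_forall fun z => ?_)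
    simp only [hden]
    ring
  have hgain : (2 * C / c + 1) * (∫ z, ‖f z‖ ^ 2 * (b z * wt Φ z)) ≤
      (∫ z, ‖f z‖ ^ 2 * (a z * wt Φ z)) + C' * ∫ z in {z | nm z ≤ R}, ‖f z‖ ^ 2 := hg f hf
  have hZ : 0 ≤ ∫ z in {z | nm z ≤ R}, ‖f z‖ ^ 2 := integral_nonneg fun z => by positivity
  rw [hsum]
  set X := ∫ z, ‖f z‖ ^ 2 * (a z * wt Φ z)
  set Y := ∫ z, ‖f z‖ ^ 2 * (b z * wt Φ z)
  set Z := ∫ z in {z | nm z ≤ R}, ‖f z‖ ^ 2
  have hm : c / 2 * C' * Z ≤ max C (c / 2 * C') * Z :=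
    mul_le_mul_of_nonneg_right (le_max_right _ _) hZ
  have hk : (C + c / 2) * Y ≤ c / 2 * (X + C' * Z) := by
    have h5 := mul_le_mul_of_nonneg_left hgain (by positivity : (0 : ℝ) ≤ c / 2)
    have h6 : c / 2 * ((2 * C / c + 1) * Y) = (C + c / 2) * Y := by
      field_simp
    linarith
  nlinarith

end Pool.Agent.Helper59.FN.COER
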