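import Pool.Agent.Helper25.FN.Spec

set_option autoImplicit false

/-! # FN part NPOS -/

namespace Pool.Agent.Helper59.FN.NPOS

open scoped ContDiff
open Pool.Agent.Helper25.FN
open Pool.Agent.Helper25.FB.Inj (Entire IsAF FBorel ExpType InPerp star InPStarExp)

theorem nm_nonneg {n : ℕ} (z : V n) : 0 ≤ nm z := Real.sqrt_nonneg _

theorem nm_cont {n : ℕ} : Continuous (nm : V n → ℝ) := by
  unfold nm
  fun_prop

theorem nm_smul {n : ℕ} (t : ℝ) (ht : 0 ≤ t) (z : V n) : nm (t • z) = t * nm z := by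
  unfold nm
  have : ∑ j, ‖(t • z) j‖ ^ 2 = t ^ 2 * ∑ j, ‖z j‖ ^ 2 := by
    rw [Finset.mul_sum]
    refine Finset.sum_congr rfl fun j _ => ?_
    rw [Pi.smul_apply, norm_smul, Real.norm_of_nonneg ht]
    ring
  rw [this, Real.sqrt_mul (sq_nonneg t), Real.sqrt_sq ht]

/-- the Euler operator -/
noncomputable def Eu {n : ℕ} (f : V n → ℂ) (z : V n) : ℂ := ∑ j, z j * wd j f z

/-- the function `g` -/
noncomputable def gg {n : ℕ} (Φ : V n → ℝ) (z : V n) : ℂ := ∑ j, z j * gr Φ z j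

/-- families depending polynomially on `l` -/
inductive R (n : ℕ) : ℕ → (ℝ → V n → ℂ) → Prop
  | of (m : ℕ) (b : V n → ℂ) (hb : Sym (m : ℤ) b) : R n m (fun _ => b)
  | add (m : ℕ) (r s : ℝ → V n → ℂ) (hr : R n m r) (hs : R n m s) :
      R n m (fun l z => r l z + s l z)
  | mul (m : ℕ) (r : ℝ → V n → ℂ) (hr : R n m r) : R n (m + 1) (fun l z => (l : ℂ) * r l z)

theorem R.congr {n m : ℕ} {r s : ℝ → V n → ℂ} (h : R n m r) (e : ∀ l z, r l z = s l z) :
    R n m s := by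
  have : r = s := by
    funext l z
    exact e l z
  exact this ▸ h

theorem R.sym {n m : ℕ} {r : ℝ → V n → ℂ} (hS : S_SYM1) (h : R n m r) (l : ℝ) :
    Sym (m : ℤ) (r l) := by
  obtain ⟨s1, s2, s3, s4, s5, s6⟩ := hS n
  induction h with
  | of m b hb => exact hb
  | add m r s _ _ ih1 ih2 => exact s2 _ _ _ ih1 ih2
  | mul m r _ ih =>
    have := s1 0 m (fun _ => (l : ℂ)) (r l) (s4 _) ih
    refine s3 _ _ _ ?_ this
    push_cast
    linarith

theorem R.smul {n m : ℕ} {r : ℝ → V n → ℂ} (hS : S_SYM1) (h : V n → ℂ) (hh : Sym 1 h)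
    (hr : R n m r) : R n (m + 1) (fun l z => h z * r l z) := by
  obtain ⟨s1, s2, s3, s4, s5, s6⟩ := hS n
  induction hr with
  | of m b hb =>
    refine R.of _ _ ?_
    refine s3 _ _ _ ?_ (s1 1 m h b hh hb)
    push_cast
    linarith
  | add m r s _ _ ih1 ih2 =>
    refine (R.add _ _ _ ih1 ih2).congr fun l z => ?_
    ring
  | mul m r _ ih =>
    refine (R.mul _ _ ih).congr fun l z => ?_
    ring

theorem R.up {n m : ℕ} {r : ℝ → V n → ℂ} (hS : S_SYM1) (hr : R n m r) : R n (m + 1) r := by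
  obtain ⟨s1, s2, s3, s4, s5, s6⟩ := hS n
  induction hr with
  | of m b hb =>
    refine R.of _ _ (s3 _ _ _ ?_ hb)
    push_cast
    linarith
  | add m r s _ _ ih1 ih2 => exact R.add _ _ _ ih1 ih2
  | mul m r _ ih => exact R.mul _ _ ih

theorem sym_sum {n : ℕ} (hS : S_SYM1) (m : ℕ) (f : Fin n → V n → ℂ)
    (hf : ∀ j, Sym (m : ℤ) (f j)) (t : Finset (Fin n)) :
    Sym (m : ℤ) (fun z => ∑ j ∈ t, f j z) := by
  obtain ⟨s1, s2, s3, s4, s5, s6⟩ := hS n
  induction t using Finset.induction_on with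
  | empty =>
    simp only [Finset.sum_empty]
    exact s3 0 m _ (by positivity) (s4 0)
  | insert j t hj ih =>
    simp only [Finset.sum_insert hj]
    exact s2 _ _ _ (hf j) ih

theorem sym_Eu {n : ℕ} (hS : S_SYM1) (m : ℕ) (b : V n → ℂ) (hb : Sym (m : ℤ) b) :
    Sym (m : ℤ) (Eu b) := by
  refine sym_sum hS m (fun j z => z j * wd j b z) (fun j => ?_) Finset.univ
  obtain ⟨s1, s2, s3, s4, s5, s6⟩ := hS n
  have := s1 1 (m - 1) _ _ (s5 j) (s6 m b j hb)
  refine s3 _ _ _ ?_ this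
  linarith

theorem sym_gg {n : ℕ} (hS : S_SYM1) (Φ : V n → ℝ) (hb : Sym 1 (fun z => (Φ z : ℂ))) :
    Sym 1 (gg Φ) := by
  have : Sym ((1 : ℕ) : ℤ) (gg Φ) := by
    refine sym_sum hS 1 (fun j z => z j * gr Φ z j) (fun j => ?_) Finset.univ
    obtain ⟨s1, s2, s3, s4, s5, s6⟩ := hS n
    have h1 := s6 1 _ j hb
    have h2 := s1 0 _ _ _ (s4 2) h1
    have := s1 1 _ _ _ (s5 j) h2
    refine s3 _ _ _ ?_ this
    norm_num
  exact_mod_cast this

theorem Eu_add {n : ℕ} (hW : S_WD) (f g : V n → ℂ) (hf : Differentiable ℝ f)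
    (hg : Differentiable ℝ g) (z : V n) : Eu (fun y => f y + g y) z = Eu f z + Eu g z := by
  unfold Eu
  rw [← Finset.sum_add_distrib]
  refine Finset.sum_congr rfl fun j _ => ?_
  rw [((hW n j).1 f g hf hg z).1]
  ring

theorem Eu_mul {n : ℕ} (hW : S_WD) (c : ℂ) (f : V n → ℂ) (hf : Differentiable ℝ f) (z : V n) :
    Eu (fun y => c * f y) z = c * Eu f z := by
  unfold Eu
  rw [Finset.mul_sum]
  refine Finset.sum_congr rfl fun j _ => ?_
  rw [(hW n j).2.1 c f hf z]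
  ring

theorem R.diff {n m : ℕ} {r : ℝ → V n → ℂ} (hS : S_SYM1) (h : R n m r) (l : ℝ) :
    Differentiable ℝ (r l) := (h.sym hS l).1.differentiable (by simp)

theorem R.eu {n m : ℕ} {r : ℝ → V n → ℂ} (hW : S_WD) (hS : S_SYM1) (hr : R n m r) :
    R n m (fun l z => -Eu (r l) z) := by
  have hneg : ∀ (m : ℕ) (b : V n → ℂ), Sym (m : ℤ) b → Sym (m : ℤ) (fun z => -b z) := by
    intro m b hb
    obtain ⟨s1, s2, s3, s4, s5, s6⟩ := hS n
    have := s1 0 m _ _ (s4 (-1)) hb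
    rw [zero_add] at this
    simpa using this
  induction hr with
  | of m b hb => exact R.of _ _ (hneg m _ (sym_Eu hS m b hb))
  | add m r s h1 h2 ih1 ih2 =>
    refine (R.add _ _ _ ih1 ih2).congr fun l z => ?_
    rw [Eu_add hW _ _ (h1.diff hS l) (h2.diff hS l)]
    ring
  | mul m r h ih =>
    refine (R.mul _ _ ih).congr fun l z => ?_
    rw [Eu_mul hW _ _ (h.diff hS l)]
    ring

theorem R.bound {n m : ℕ} {r : ℝ → V n → ℂ} (hr : R n m r) :
    ∃ C : ℝ, ∀ l : ℝ, 1 ≤ l → ∀ z, ‖r l z‖ ≤ C * (l + 1 + nm z) ^ m := by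
  induction hr with
  | of m b hb =>
    obtain ⟨C, hC⟩ := hb.2 0
    refine ⟨|C|, fun l hl z => ?_⟩
    have h1 := hC z
    rw [norm_iteratedFDeriv_zero] at h1
    simp only [Nat.cast_zero, sub_zero, zpow_natCast] at h1
    refine h1.trans ?_
    have h2 := nm_nonneg z
    refine mul_le_mul (le_abs_self C) ?_ (by positivity) (abs_nonneg _)
    exact pow_le_pow_left₀ (by positivity) (by linarith) _
  | add m r s _ _ ih1 ih2 =>
    obtain ⟨C, hC⟩ := ih1
    obtain ⟨D, hD⟩ := ih2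
    refine ⟨C + D, fun l hl z => ?_⟩
    have := norm_add_le (r l z) (s l z)
    have h1 := hC l hl z
    have h2 := hD l hl z
    have h3 : (C + D) * (l + 1 + nm z) ^ m = C * (l + 1 + nm z) ^ m + D * (l + 1 + nm z) ^ m := by
      ring
    show ‖r l z + s l z‖ ≤ _
    linarith
  | mul m r _ ih =>
    obtain ⟨C, hC⟩ := ih
    refine ⟨C, fun l hl z => ?_⟩
    have h1 := hC l hl z
    have h2 := nm_nonneg z
    show ‖(l : ℂ) * r l z‖ ≤ _
    rw [norm_mul, Complex.norm_real, Real.norm_of_nonneg (by linarith), pow_succ]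
    have h3 : 0 ≤ C * (l + 1 + nm z) ^ m := (norm_nonneg _).trans h1
    calc l * ‖r l z‖ ≤ (l + 1 + nm z) * (C * (l + 1 + nm z) ^ m) :=
          mul_le_mul (by linarith) h1 (norm_nonneg _) (by linarith)
      _ = C * ((l + 1 + nm z) ^ m * (l + 1 + nm z)) := by ring

/-- the factor `w` -/
noncomputable def ww {n : ℕ} (Φ : V n → ℝ) (l : ℝ) (z : V n) : ℂ := (l : ℂ) + (gg Φ z + (-(n : ℂ)))

/-- the symbols `q_k` -/
noncomputable def qq {n : ℕ} (Φ : V n → ℝ) : ℕ → ℝ → V n → ℂ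
  | 0 => fun _ _ => 1
  | k + 1 => fun l z => ww Φ l z * qq Φ k l z + -Eu (qq Φ k l) z

theorem R.ww {n m : ℕ} {r : ℝ → V n → ℂ} (hS : S_SYM1) (Φ : V n → ℝ)
    (hΦ : Sym 1 (fun z => (Φ z : ℂ))) (hr : R n m r) :
    R n (m + 1) (fun l z => ww Φ l z * r l z) := by
  obtain ⟨s1, s2, s3, s4, s5, s6⟩ := hS n
  have h1 : Sym 1 (fun z : V n => gg Φ z + (-(n : ℂ))) :=
    s2 1 _ _ (sym_gg hS Φ hΦ) (s3 0 1 _ (by norm_num) (s4 _))
  refine (R.add _ _ _ (R.mul _ _ hr) (hr.smul hS _ h1)).congr fun l z => ?_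
  unfold Pool.Agent.Helper59.FN.NPOS.ww
  ring

theorem qR {n : ℕ} (hW : S_WD) (hS : S_SYM1) (Φ : V n → ℝ)
    (hΦ : Sym 1 (fun z => (Φ z : ℂ))) (k : ℕ) : R n k (qq Φ k) := by
  induction k with
  | zero =>
    refine R.of 0 _ ?_
    exact_mod_cast (hS n).2.2.2.1 1
  | succ k ih =>
    exact R.add _ _ _ (ih.ww hS Φ hΦ) ((ih.eu hW hS).up hS)

theorem qE {n : ℕ} (hW : S_WD) (hS : S_SYM1) (Φ : V n → ℝ)
    (hΦ : Sym 1 (fun z => (Φ z : ℂ))) (k : ℕ) :
    R n k (fun l z => qq Φ (k + 1) l z - ww Φ l z ^ (k + 1)) := by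
  induction k with
  | zero =>
    refine ((qR hW hS Φ hΦ 0).eu hW hS).congr fun l z => ?_
    show -Eu (qq Φ 0 l) z = ww Φ l z * 1 + -Eu (qq Φ 0 l) z - ww Φ l z ^ (0 + 1)
    ring
  | succ k ih =>
    refine (R.add _ _ _ (ih.ww hS Φ hΦ) ((qR hW hS Φ hΦ (k + 1)).eu hW hS)).congr fun l z => ?_
    show ww Φ l z * (qq Φ (k + 1) l z - ww Φ l z ^ (k + 1)) + -Eu (qq Φ (k + 1) l) z =
      ww Φ l z * qq Φ (k + 1) l z + -Eu (qq Φ (k + 1) l) z - ww Φ l z ^ (k + 1 + 1)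
    ring

theorem wd_coord {n : ℕ} (j : Fin n) (z : V n) : wd j (fun y : V n => y j) z = 1 := by
  have h : fderiv ℝ (fun y : V n => y j) z = ContinuousLinearMap.proj j :=
    (ContinuousLinearMap.proj (R := ℝ) (φ := fun _ : Fin n => ℂ) j).fderiv
  unfold wd
  rw [h]
  simp only [ContinuousLinearMap.proj_apply, Pi.single_eq_same, Complex.I_mul_I]
  norm_num

theorem Nt_eq {n : ℕ} (hW : S_WD) (Φ : V n → ℝ) (hΦ : ContDiff ℝ ∞ Φ) (l : ℝ) (q : V n → ℂ)
    (hq : Differentiable ℝ q) (z : V n) :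
    Nt l (fun y => q y * wc Φ y) z = (ww Φ l z * q z + -Eu q z) * wc Φ z := by
  unfold Nt
  have key : ∀ j, wd j (fun y : V n => y j * (q y * wc Φ y)) z =
      q z * wc Φ z + z j * wd j q z * wc Φ z - z j * gr Φ z j * q z * wc Φ z := by
    intro j
    obtain ⟨w1, w2, w3, w4, w5⟩ := hW n j
    have hwd : Differentiable ℝ (wc Φ) := (w4 Φ hΦ).1.differentiable (by simp)
    have hc : Differentiable ℝ (fun y : V n => y j) := by fun_prop
    rw [(w1 (fun y => y j) (fun y => q y * wc Φ y) hc (hq.mul hwd) z).2,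
      (w1 q (wc Φ) hq hwd z).2, (w4 Φ hΦ).2 z, wd_coord]
    ring
  have e1 : ∑ j, z j * gr Φ z j * q z * wc Φ z = (∑ j, z j * gr Φ z j) * q z * wc Φ z := by
    rw [Finset.sum_mul, Finset.sum_mul]
  have e2 : ∑ j, z j * wd j q z * wc Φ z = (∑ j, z j * wd j q z) * wc Φ z := by
    rw [Finset.sum_mul]
  rw [Finset.sum_congr rfl fun j _ => key j, Finset.sum_sub_distrib, Finset.sum_add_distrib,
    e1, e2]
  simp only [Finset.sum_const, Finset.card_univ, Fintype.card_fin, nsmul_eq_mul]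
  unfold ww Eu gg
  ring

theorem Nt_iter {n : ℕ} (hW : S_WD) (hS : S_SYM1) (Φ : V n → ℝ) (hΦ : ContDiff ℝ ∞ Φ)
    (hΦ1 : Sym 1 (fun z => (Φ z : ℂ))) (l : ℝ) (k : ℕ) :
    (Nt l)^[k] (wc Φ) = fun z => qq Φ k l z * wc Φ z := by
  induction k with
  | zero =>
    funext z
    simp [qq]
  | succ k ih =>
    rw [Function.iterate_succ_apply', ih]
    funext z
    exact Nt_eq hW Φ hΦ l _ ((qR hW hS Φ hΦ1 k).diff hS l) z

/-! ### homogeneity -/

theorem nm_pos_dense {n : ℕ} (z : V n) (hz : 1 ≤ nm z) : z ∈ closure {y : V n | 1 < nm y} := by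
  rw [mem_closure_iff_seq_limit]
  refine ⟨fun i : ℕ => (1 + 1 / ((i : ℝ) + 1)) • z, fun i => ?_, ?_⟩
  · have h0 : (0 : ℝ) < 1 / ((i : ℝ) + 1) := by positivity
    show 1 < nm ((1 + 1 / ((i : ℝ) + 1)) • z)
    rw [nm_smul _ (by positivity)]
    nlinarith
  · have h1 : Filter.Tendsto (fun i : ℕ => (1 + 1 / ((i : ℝ) + 1))) Filter.atTop
        (nhds (1 + 0)) := tendsto_const_nhds.add tendsto_one_div_add_atTop_nhds_zero_nat
    have h2 := h1.smul_const z
    simpa using h2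

theorem fderiv_hom {n : ℕ} (Φ : V n → ℝ) (hΦ : ContDiff ℝ ∞ Φ)
    (hh : ∀ (z : V n) (t : ℝ), 1 ≤ nm z → 1 ≤ t → Φ (t • z) = t * Φ z) (t : ℝ) (ht : 1 ≤ t)
    (z : V n) (hz : 1 ≤ nm z) : fderiv ℝ Φ (t • z) = fderiv ℝ Φ z := by
  have hd : Differentiable ℝ Φ := hΦ.differentiable (by simp)
  have hopen : IsOpen {y : V n | 1 < nm y} := isOpen_lt continuous_const nm_cont
  have h1 : ∀ y ∈ {y : V n | 1 < nm y}, fderiv ℝ Φ (t • y) = fderiv ℝ Φ y := by
    intro y hy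
    have e : (fun x : V n => Φ (t • x)) =ᶠ[nhds y] fun x => t * Φ x := by
      filter_upwards [hopen.mem_nhds hy] with x hx
      exact hh x t (le_of_lt hx) ht
    have h2 : HasFDerivAt (fun x : V n => Φ (t • x))
        ((fderiv ℝ Φ (t • y)).comp (t • ContinuousLinearMap.id ℝ (V n))) y := by
      have h3 : HasFDerivAt (fun x : V n => t • x) (t • ContinuousLinearMap.id ℝ (V n)) y :=
        (hasFDerivAt_id y).const_smul t
      exact (hd (t • y)).hasFDerivAt.comp y h3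
    have h4 : HasFDerivAt (fun x : V n => t * Φ x) (t • fderiv ℝ Φ y) y :=
      (hd y).hasFDerivAt.const_mul t
    have h5 := h2.unique (h4.congr_of_eventuallyEq e)
    have ht0 : t ≠ 0 := by linarith
    ext v
    have h6 := congrArg (fun L : V n →L[ℝ] ℝ => L v) h5
    simp only [ContinuousLinearMap.comp_apply, _root_.smul_apply,
      ContinuousLinearMap.id_apply, map_smul, smul_eq_mul] at h6
    exact mul_left_cancel₀ ht0 h6
  have hc1 : Continuous (fun y : V n => fderiv ℝ Φ (t • y)) :=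
    (hΦ.continuous_fderiv (by simp)).comp (continuous_const_smul t)
  have hc2 : Continuous (fun y : V n => fderiv ℝ Φ y) := hΦ.continuous_fderiv (by simp)
  have hcl : IsClosed {y : V n | fderiv ℝ Φ (t • y) = fderiv ℝ Φ y} := isClosed_eq hc1 hc2
  exact (closure_minimal h1 hcl) (nm_pos_dense z hz)

theorem euler {n : ℕ} (Φ : V n → ℝ) (hΦ : ContDiff ℝ ∞ Φ)
    (hh : ∀ (z : V n) (t : ℝ), 1 ≤ nm z → 1 ≤ t → Φ (t • z) = t * Φ z)
    (z : V n) (hz : 1 ≤ nm z) : fderiv ℝ Φ z z = Φ z := by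
  have hd : Differentiable ℝ Φ := hΦ.differentiable (by simp)
  have h1 : HasDerivAt (fun t : ℝ => Φ (t • z)) (fderiv ℝ Φ z z) 1 := by
    have h2 : HasDerivAt (fun t : ℝ => t • z) ((1 : ℝ) • z) 1 := (hasDerivAt_id (1 : ℝ)).smul_const z
    have h3 : HasFDerivAt Φ (fderiv ℝ Φ z) ((1 : ℝ) • z) := by
      rw [one_smul]
      exact (hd z).hasFDerivAt
    have := h3.comp_hasDerivAt (1 : ℝ) h2
    rw [one_smul] at this
    exact this
  have h4 : HasDerivWithinAt (fun t : ℝ => Φ (t • z)) (Φ z) (Set.Ici 1) 1 := by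
    have h5 : HasDerivWithinAt (fun t : ℝ => t * Φ z) (1 * Φ z) (Set.Ici 1) 1 :=
      (hasDerivAt_id (1 : ℝ)).hasDerivWithinAt.mul_const (Φ z)
    rw [one_mul] at h5
    exact h5.congr (fun t ht => hh z t hz ht) (hh z 1 hz le_rfl)
  exact (uniqueDiffWithinAt_Ici (1 : ℝ)).eq_deriv _ h1.hasDerivWithinAt h4

theorem fderiv_coe {n : ℕ} (Φ : V n → ℝ) (hΦ : ContDiff ℝ ∞ Φ) (z v : V n) :
    fderiv ℝ (fun y : V n => (Φ y : ℂ)) z v = ((fderiv ℝ Φ z v : ℝ) : ℂ) := by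
  have hd : Differentiable ℝ Φ := hΦ.differentiable (by simp)
  have h := Complex.ofRealCLM.hasFDerivAt.comp z (hd z).hasFDerivAt
  have h2 : HasFDerivAt (fun y : V n => (Φ y : ℂ)) (Complex.ofRealCLM.comp (fderiv ℝ Φ z)) z := h
  rw [h2.fderiv]
  rfl

theorem gr_eq {n : ℕ} (Φ : V n → ℝ) (hΦ : ContDiff ℝ ∞ Φ) (z : V n) (j : Fin n) :
    gr Φ z j = ((fderiv ℝ Φ z (Pi.single j 1) : ℝ) : ℂ) -
      Complex.I * ((fderiv ℝ Φ z (Pi.single j Complex.I) : ℝ) : ℂ) := by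
  unfold gr wd
  rw [fderiv_coe Φ hΦ, fderiv_coe Φ hΦ]
  ring

theorem gg_re {n : ℕ} (Φ : V n → ℝ) (hΦ : ContDiff ℝ ∞ Φ) (z : V n) :
    (gg Φ z).re = fderiv ℝ Φ z z := by
  unfold gg
  rw [Complex.re_sum]
  have hz : z = ∑ j, ((z j).re • (Pi.single j 1 : V n) + (z j).im • (Pi.single j Complex.I : V n)) := by
    funext i
    rw [Finset.sum_apply]
    simp only [Pi.add_apply, Pi.smul_apply]
    rw [Finset.sum_eq_single i]
    · simp only [Pi.single_eq_same, Complex.real_smul, mul_one]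
      exact (Complex.re_add_im (z i)).symm
    · intro j _ hj
      rw [Pi.single_eq_of_ne (Ne.symm hj), Pi.single_eq_of_ne (Ne.symm hj)]
      simp
    · intro h
      exact absurd (Finset.mem_univ i) h
  conv_rhs => rw [hz]
  rw [map_sum]
  have hz2 : (∑ j, ((z j).re • (Pi.single j 1 : V n) + (z j).im • (Pi.single j Complex.I : V n))) = z :=
    hz.symm
  rw [hz2]
  refine Finset.sum_congr rfl fun j _ => ?_
  rw [gr_eq Φ hΦ, map_add, map_smul, map_smul]
  simp only [Complex.mul_re, Complex.sub_re, Complex.sub_im, Complex.ofReal_re, Complex.ofReal_im,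
    Complex.I_re, Complex.I_im, Complex.mul_im, smul_eq_mul]
  ring

theorem gg_hom {n : ℕ} (Φ : V n → ℝ) (hΦ : ContDiff ℝ ∞ Φ)
    (hh : ∀ (z : V n) (t : ℝ), 1 ≤ nm z → 1 ≤ t → Φ (t • z) = t * Φ z) (t : ℝ) (ht : 1 ≤ t)
    (z : V n) (hz : 1 ≤ nm z) : gg Φ (t • z) = t * gg Φ z := by
  unfold gg
  rw [Finset.mul_sum]
  refine Finset.sum_congr rfl fun j _ => ?_
  rw [gr_eq Φ hΦ, gr_eq Φ hΦ, fderiv_hom Φ hΦ hh t ht z hz, Pi.smul_apply, Complex.real_smul]
  ring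

theorem gg_im {n : ℕ} (P : Pol n) (A η : ℝ) (Φ : V n → ℝ) (hW : Wt P A η Φ) (z : V n)
    (hz : 1 ≤ nm z) : |(gg Φ z).im| ≤ η * Φ z := by
  have h0 : 0 < nm z := by linarith
  set y : V n := (nm z)⁻¹ • z with hy
  have hyn : nm y = 1 := by
    rw [hy, nm_smul _ (by positivity)]
    exact inv_mul_cancel₀ h0.ne'
  have hzy : z = nm z • y := by
    rw [hy, smul_smul, mul_inv_cancel₀ h0.ne', one_smul]
  have h1 := hW.ang y hyn
  have h2 : gg Φ z = (nm z : ℂ) * gg Φ y := by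
    conv_lhs => rw [hzy]
    exact gg_hom Φ hW.smooth hW.hom (nm z) hz y hyn.ge
  have h3 : Φ z = nm z * Φ y := by
    conv_lhs => rw [hzy]
    exact hW.hom y (nm z) hyn.ge hz
  rw [h2, Complex.im_ofReal_mul, abs_mul, abs_of_pos h0, h3]
  have h4 : |(gg Φ y).im| ≤ η * Φ y := h1
  nlinarith

/-! ### powers of numbers of small argument -/

theorem pow_sub_one (τ : ℝ) (k : ℕ) :
    ‖(1 + τ * Complex.I) ^ k - 1‖ ≤ (1 + |τ|) ^ k - 1 := by
  induction k with
  | zero => simp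
  | succ k ih =>
    have e : (1 + τ * Complex.I) ^ (k + 1) - 1 =
        (1 + τ * Complex.I) * ((1 + τ * Complex.I) ^ k - 1) + τ * Complex.I := by ring
    have h1 : ‖(τ : ℂ) * Complex.I‖ = |τ| := by simp
    have h2 : ‖(1 : ℂ) + τ * Complex.I‖ ≤ 1 + |τ| := by
      refine (norm_add_le _ _).trans ?_
      rw [h1]
      simp
    rw [e]
    refine (norm_add_le _ _).trans ?_
    rw [norm_mul, h1, pow_succ]
    have h3 := mul_le_mul h2 ih (norm_nonneg _) (by positivity)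
    nlinarith

theorem re_pow (k : ℕ) (η : ℝ) (hη : (1 + η) ^ k ≤ 3 / 2) (w : ℂ) (hx : 0 < w.re)
    (hi : |w.im| ≤ η * w.re) : w.re ^ k / 2 ≤ (w ^ k).re := by
  set τ : ℝ := w.im / w.re with hτ
  have h1 : |τ| ≤ η := by
    rw [hτ, abs_div, abs_of_pos hx, div_le_iff₀ hx]
    exact hi
  have h2 : w = (w.re : ℂ) * (1 + τ * Complex.I) := by
    have h3 : (w.re : ℂ) ≠ 0 := by
      exact_mod_cast hx.ne'
    rw [hτ]
    push_cast
    rw [mul_add, mul_one, ← mul_assoc, mul_div_cancel₀ _ h3]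
    exact (Complex.re_add_im w).symm
  have h4 : w ^ k = ((w.re ^ k : ℝ) : ℂ) * (1 + τ * Complex.I) ^ k := by
    conv_lhs => rw [h2]
    rw [mul_pow]
    push_cast
    ring
  have h5 : 1 / 2 ≤ ((1 + τ * Complex.I) ^ k).re := by
    have h6 := pow_sub_one τ k
    have h7 : (1 + |τ|) ^ k ≤ (1 + η) ^ k := pow_le_pow_left₀ (by positivity) (by linarith) _
    have h8 := Complex.abs_re_le_norm ((1 + τ * Complex.I) ^ k - 1)
    rw [Complex.sub_re, Complex.one_re] at h8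
    have h9 := (abs_le.mp (h8.trans h6)).1
    linarith
  rw [h4, Complex.re_ofReal_mul]
  have h6 : 0 < w.re ^ k := pow_pos hx _
  nlinarith

theorem exists_eta (k : ℕ) : ∃ η : ℝ, 0 < η ∧ (1 + η) ^ k ≤ 3 / 2 := by
  have hc : Filter.Tendsto (fun x : ℝ => (1 + x) ^ k) (nhds 0) (nhds ((1 + 0) ^ k)) :=
    ((continuous_const.add continuous_id).pow k).tendsto 0
  simp only [add_zero, one_pow] at hc
  have h1 : ∀ᶠ x in nhds (0 : ℝ), (1 + x) ^ k < 3 / 2 :=
    hc.eventually (gt_mem_nhds (by norm_num))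
  obtain ⟨ε, hε, h2⟩ := Metric.eventually_nhds_iff.mp h1
  refine ⟨ε / 2, by positivity, (h2 ?_).le⟩
  rw [Real.dist_eq, sub_zero, abs_of_pos (by positivity)]
  linarith

theorem main (hWD : S_WD) (hSYM1 : S_SYM1) (hSYM2 : S_SYM2) : S_NPOS := by
  intro k
  obtain ⟨η, hη, hηk⟩ := exists_eta k
  refine ⟨η, hη, ?_⟩
  intro n P A Φ hA hW
  have hΦ1 : Sym 1 (fun z => (Φ z : ℂ)) := hSYM2 n Φ hW.smooth hW.hom
  rcases Nat.eq_zero_or_pos k with hk | hk
  · subst hk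
    refine ⟨1, fun l hl => ⟨by linarith, fun _ => 1, ?_, fun z => ?_, fun z => ?_⟩⟩
    · exact_mod_cast (hSYM1 n).2.2.2.1 1
    · simp
    · simp
  obtain ⟨m, rfl⟩ : ∃ m, k = m + 1 := ⟨k - 1, by omega⟩
  obtain ⟨C, hC⟩ := (qE hWD hSYM1 Φ hΦ1 m).bound
  -- bound of `g` in the unit ball
  obtain ⟨M, hM⟩ : ∃ M : ℝ, 0 ≤ M ∧ ∀ z : V n, nm z ≤ 1 → ‖gg Φ z‖ ≤ M := by
    obtain ⟨K, hK⟩ := (sym_gg hSYM1 Φ hΦ1).2 0
    refine ⟨|K| * 2, by positivity, fun z hz => ?_⟩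
    have h1 := hK z
    rw [norm_iteratedFDeriv_zero] at h1
    simp only [Nat.cast_zero, sub_zero, zpow_one] at h1
    have h2 := nm_nonneg z
    calc ‖gg Φ z‖ ≤ K * (1 + nm z) := h1
      _ ≤ |K| * 2 := mul_le_mul (le_abs_self K) (by linarith) (by positivity) (abs_nonneg _)
  obtain ⟨hM0, hM⟩ := hM
  set c : ℝ := min (1 / 6) A with hc
  have hc0 : 0 < c := lt_min (by norm_num) hA
  have hc6 : c ≤ 1 / 6 := min_le_left _ _
  have hcA : c ≤ A := min_le_right _ _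
  refine ⟨max (max 1 (2 * (n + M))) (max (n + M + M / η) (2 * |C| / c ^ (m + 1) + 1)),
    fun l hl => ?_⟩
  have hl1 : 1 ≤ l := (le_max_left _ _).trans ((le_max_left _ _).trans hl)
  have hl2 : 2 * (n + M) ≤ l := (le_max_right _ _).trans ((le_max_left _ _).trans hl)
  have hl3 : n + M + M / η ≤ l := (le_max_left _ _).trans ((le_max_right _ _).trans hl)
  have hl4 : 2 * |C| / c ^ (m + 1) + 1 ≤ l := (le_max_right _ _).trans ((le_max_right _ _).trans hl)
  refine ⟨by linarith, qq Φ (m + 1) l, ?_, fun z => ?_, fun z => ?_⟩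
  · exact (qR hWD hSYM1 Φ hΦ1 (m + 1)).sym hSYM1 l
  · exact congrFun (Nt_iter hWD hSYM1 Φ hW.smooth hΦ1 l (m + 1)) z
  have hz0 := nm_nonneg z
  have hn0 : (0 : ℝ) ≤ n := Nat.cast_nonneg n
  set w : ℂ := ww Φ l z with hw
  have hwre : w.re = l - n + (gg Φ z).re := by
    rw [hw]
    unfold ww
    simp
    ring
  have hwim : w.im = (gg Φ z).im := by
    rw [hw]
    unfold ww
    simp
  -- the two estimates on `w`
  have hest : c * (l + 1 + nm z) ≤ w.re ∧ |w.im| ≤ η * w.re := by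
    rcases le_total 1 (nm z) with hz | hz
    · have h1 : (gg Φ z).re = Φ z := by
        rw [gg_re Φ hW.smooth, euler Φ hW.smooth hW.hom z hz]
      have h2 := gg_im P A η Φ hW z hz
      have h3 := hW.low z hz
      rw [hwre, hwim, h1]
      constructor
      · have h4 : c * nm z ≤ A * nm z := mul_le_mul_of_nonneg_right hcA hz0
        have h5 : c * (l + 1) ≤ 1 / 6 * (l + 1) := mul_le_mul_of_nonneg_right hc6 (by linarith)
        nlinarith
      · have h6 : 0 ≤ η * (l - n) := mul_nonneg hη.le (by linarith)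
        nlinarith
    · have h1 := hM z hz
      have h2 := (Complex.abs_re_le_norm (gg Φ z)).trans h1
      have h3 := (Complex.abs_im_le_norm (gg Φ z)).trans h1
      have h4 := (abs_le.mp h2).1
      rw [hwre, hwim]
      constructor
      · have h5 : c * (l + 1 + nm z) ≤ 1 / 6 * (l + 1 + nm z) :=
          mul_le_mul_of_nonneg_right hc6 (by linarith)
        linarith
      · have h6 : M / η ≤ l - n + (gg Φ z).re := by linarith
        have h7 : M ≤ η * (l - n + (gg Φ z).re) := by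
          rw [div_le_iff₀ hη] at h6
          linarith
        linarith
  obtain ⟨he1, he2⟩ := hest
  have hT0 : 0 < l + 1 + nm z := by linarith
  have hx0 : 0 < w.re := lt_of_lt_of_le (by positivity) he1
  have h1 := re_pow (m + 1) η hηk w hx0 he2
  have h2 := hC l hl1 z
  have h3 := (abs_le.mp ((Complex.abs_re_le_norm _).trans h2)).1
  rw [Complex.sub_re] at h3
  have h4 : (c * (l + 1 + nm z)) ^ (m + 1) ≤ w.re ^ (m + 1) :=
    pow_le_pow_left₀ (by positivity) he1 _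
  have h5 : (c * (l + 1 + nm z)) ^ (m + 1) =
      c ^ (m + 1) * (l + 1 + nm z) * (l + 1 + nm z) ^ m := by
    rw [mul_pow, pow_succ (l + 1 + nm z)]
    ring
  have h6 : 2 * |C| < c ^ (m + 1) * (l + 1 + nm z) := by
    have h7 : 2 * |C| / c ^ (m + 1) < l + 1 + nm z := by linarith
    rw [div_lt_iff₀ (by positivity)] at h7
    linarith
  have h8 : 0 < (l + 1 + nm z) ^ m := by positivity
  have h9 : 2 * |C| * (l + 1 + nm z) ^ m < c ^ (m + 1) * (l + 1 + nm z) * (l + 1 + nm z) ^ m :=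
    mul_lt_mul_of_pos_right h6 h8
  have h10 : C * (l + 1 + nm z) ^ m ≤ |C| * (l + 1 + nm z) ^ m :=
    mul_le_mul_of_nonneg_right (le_abs_self C) h8.le
  have h11 : (w ^ (m + 1)).re = (ww Φ l z ^ (m + 1)).re := rfl
  linarith

end Pool.Agent.Helper59.FN.NPOS
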